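import Pool.Agent.H.MP_7f7d18_an.B

open MeasureTheory Set Filter Topology Pool.Agent.H.MP_7f7d18_an
open scoped ENNReal NNReal BoundedContinuousFunction Real

namespace Pool.Agent.H.MP_7fabd3_an

noncomputable def kn (D : ℝ) (n : ℕ) (p : ℝ × ℝ) : ℝ≥0 :=
  Real.toNNReal (Real.log (D / max |p.1 - p.2| (D * Real.exp (-(n : ℝ)))))

theorem kn_cont {D : ℝ} (hD : 0 < D) (n : ℕ) : Continuous (kn D n) := by
  have h : ∀ p : ℝ × ℝ, 0 < max |p.1 - p.2| (D * Real.exp (-(n : ℝ))) := fun p =>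
    lt_max_of_lt_right (by positivity)
  refine continuous_real_toNNReal.comp (Continuous.log (Continuous.div continuous_const
    (by fun_prop) fun p => (h p).ne') fun p => (div_pos hD (h p)).ne')

theorem log_top {D : ℝ} (hD : 0 < D) (n : ℕ) :
    Real.log (D / (D * Real.exp (-(n : ℝ)))) = n := by
  rw [div_mul_cancel_left₀ hD.ne', Real.log_inv, Real.log_exp, neg_neg]

theorem kn_le {D : ℝ} (hD : 0 < D) (n : ℕ) (p : ℝ × ℝ) : (kn D n p : ℝ) ≤ n := by
  rw [kn, Real.coe_toNNReal', max_le_iff]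
  refine ⟨le_trans (Real.log_le_log (div_pos hD (lt_max_of_lt_right (by positivity))) ?_)
    (log_top hD n).le, Nat.cast_nonneg n⟩
  exact div_le_div_of_nonneg_left hD.le (by positivity) (le_max_right _ _)

noncomputable def kb {D : ℝ} (hD : 0 < D) (n : ℕ) : ℝ × ℝ →ᵇ ℝ≥0 :=
  BoundedContinuousFunction.mkOfBound ⟨kn D n, kn_cont hD n⟩ n fun p q => by
    have h1 := kn_le hD n p
    have h2 := kn_le hD n q
    have h3 := (kn D n p).2
    have h4 := (kn D n q).2
    rw [NNReal.dist_eq, abs_le]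
    exact ⟨by simp only [ContinuousMap.coe_mk]; linarith [(kn D n p).coe_nonneg],
      by simp only [ContinuousMap.coe_mk]; linarith [(kn D n q).coe_nonneg]⟩

theorem kn_mono {D : ℝ} (hD : 0 < D) (p : ℝ × ℝ) : Monotone fun n => (kn D n p : ℝ≥0∞) := by
  intro m n hmn
  refine ENNReal.coe_le_coe.2 (Real.toNNReal_le_toNNReal (Real.log_le_log
    (div_pos hD (lt_max_of_lt_right (by positivity))) (div_le_div_of_nonneg_left hD.le
      (lt_max_of_lt_right (by positivity)) (max_le_max le_rfl ?_))))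
  have : (m : ℝ) ≤ n := by exact_mod_cast hmn
  gcongr

theorem k_eq {D : ℝ} (hD : 0 < D) (p : ℝ × ℝ) : k D p.1 p.2 = ⨆ n, (kn D n p : ℝ≥0∞) := by
  by_cases h : p.1 = p.2
  · rw [k, if_pos h, ← ENNReal.iSup_natCast]
    congr 1
    funext n
    rw [kn, h, sub_self, abs_zero, max_eq_right (by positivity), log_top hD]
    simp
  · have hab : 0 < |p.1 - p.2| := abs_pos.2 (sub_ne_zero.2 h)
    rw [k, if_neg h]
    refine le_antisymm ?_ (iSup_le fun n => ?_)
    · obtain ⟨n, hn⟩ := exists_nat_ge (D / |p.1 - p.2|)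
      refine le_iSup_of_le n (le_of_eq ?_)
      have : D * Real.exp (-(n : ℝ)) ≤ |p.1 - p.2| := by
        rw [Real.exp_neg, ← div_eq_mul_inv, div_le_comm₀ (Real.exp_pos _) hab]
        linarith [Real.add_one_le_exp (n : ℝ)]
      rw [kn, max_eq_left this]
      rfl
    · exact ENNReal.ofReal_le_ofReal (Real.log_le_log
        (div_pos hD (lt_max_of_lt_left hab)) (div_le_div_of_nonneg_left hD.le hab (le_max_left _ _)))

theorem exists_min {K : Set ℝ} (hK : IsCompact K) {D : ℝ} (hD : 0 < D) (ρ : Measure ℝ)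
    [IsProbabilityMeasure ρ] (hρ : ρ Kᶜ = 0) :
    ∃ μ : Measure ℝ, IsProbabilityMeasure μ ∧ μ Kᶜ = 0 ∧ ∀ ν : Measure ℝ,
      IsProbabilityMeasure ν → ν Kᶜ = 0 → ∫⁻ x, U D μ x ∂μ ≤ ∫⁻ x, U D ν x ∂ν := by
  have hc := isCompact_setOfPred_probabilityMeasure_mass_eq_compl_isCompact_le (E := ℝ)
    (u := fun _ => 0) (K := fun _ => K) tendsto_const_nhds (fun _ => hK) (Or.inl inferInstance)
  have hmem : ∀ ν : ProbabilityMeasure ℝ,
      ν ∈ {μ : ProbabilityMeasure ℝ | ∀ _ : ℕ, μ Kᶜ ≤ 0} ↔ (ν : Measure ℝ) Kᶜ = 0 := fun ν => by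
    simp only [mem_ofPred_eq, forall_const, nonpos_iff_eq_zero]
    exact ProbabilityMeasure.null_iff_toMeasure_null ν _
  have e : (fun ν : ProbabilityMeasure ℝ => ∫⁻ x, U D ν x ∂ν)
      = fun ν : ProbabilityMeasure ℝ => ⨆ n, ∫⁻ p, kb hD n p ∂(ν.prod ν) := by
    funext ν
    rw [← lintegral_iSup (f := fun n p => (kb hD n p : ℝ≥0∞))
      (fun n => (kn_cont hD n).measurable.coe_nnreal_ennreal) fun m n h p => kn_mono hD p h]
    have := lintegral_prod (μ := (ν : Measure ℝ)) (ν := (ν : Measure ℝ)) _ (k_meas D).aemeasurable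
    rw [show ∫⁻ x, U D ν x ∂(ν : Measure ℝ) = _ from this.symm]
    exact lintegral_congr fun p => k_eq hD p
  have hl : LowerSemicontinuous fun ν : ProbabilityMeasure ℝ => ∫⁻ x, U D ν x ∂ν := by
    rw [e]
    refine lowerSemicontinuous_iSup fun n => Continuous.lowerSemicontinuous ?_
    exact (ProbabilityMeasure.continuous_lintegral_boundedContinuousFunction (kb hD n)).comp
      (ProbabilityMeasure.continuous_prod.comp (continuous_id.prodMk continuous_id))
  obtain ⟨μ, hμ, hmin⟩ := LowerSemicontinuousOn.exists_isMinOn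
    ⟨⟨ρ, inferInstance⟩, (hmem ⟨ρ, inferInstance⟩).2 hρ⟩ hc (hl.lowerSemicontinuousOn _)
  exact ⟨μ, inferInstance, (hmem μ).1 hμ, fun ν hν hνK => hmin (a := ⟨ν, hν⟩) ((hmem ⟨ν, hν⟩).2 hνK)⟩

theorem is_min {K : Set ℝ} (hK : IsCompact K) {D : ℝ} (hD : Metric.diam K < D) {ρ : Measure ℝ}
    [IsProbabilityMeasure ρ] (hρ : ρ Kᶜ = 0) {e : ℝ≥0∞} (he : e < ⊤) (hU : ∀ x ∈ K, U D ρ x = e) :
    ∫⁻ x, U D ρ x ∂ρ = e ∧ ∀ ν : Measure ℝ,
      IsProbabilityMeasure ν → ν Kᶜ = 0 → ∫⁻ x, U D ρ x ∂ρ ≤ ∫⁻ x, U D ν x ∂ν := by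
  have hD0 : 0 < D := Metric.diam_nonneg.trans_lt hD
  have key : ∀ ν : Measure ℝ, IsProbabilityMeasure ν → ν Kᶜ = 0 → ∫⁻ x, U D ρ x ∂ν = e := by
    intro ν _ hν
    have hKae : ∀ᵐ x ∂ν, x ∈ K := hν
    rw [lintegral_congr_ae (hKae.mono hU)]
    simp
  have h0 := key ρ inferInstance hρ
  obtain ⟨μ, hμ, hμK, hmin⟩ := exists_min hK hD0 ρ hρ
  have hE : ∫⁻ x, U D μ x ∂μ < ⊤ := (hmin ρ inferInstance hρ).trans_lt (h0 ▸ he)
  refine ⟨h0, fun ν hν hνK => le_trans ?_ (hmin ν hν hνK)⟩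
  rw [h0, ← key μ hμ hμK, U_swap]
  have hKρ : ∀ᵐ x ∂ρ, x ∈ K := hρ
  have hKμ : ∀ᵐ x ∂μ, x ∈ K := hμK
  refine (lintegral_mono_ae (g := fun _ => ∫⁻ x, U D μ x ∂μ) ?_).trans (by simp)
  filter_upwards [hKρ] with z hz
  obtain ⟨-, h2, h3⟩ := frostman hK hD hμK hE hmin (z : ℂ)
  simp only [← Complex.ofReal_sub, Complex.norm_real, Real.norm_eq_abs] at h2 h3
  have h1 : ∀ᵐ x ∂μ, 0 ≤ Real.log D - Real.log |x - z| ∧
      k D z x = ENNReal.ofReal (Real.log D - Real.log |x - z|) := by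
    filter_upwards [hKμ, ae_ne (no_atom hE z)] with x hx hxz
    have hab : 0 < |x - z| := abs_pos.2 (sub_ne_zero.2 hxz)
    have : |x - z| ≤ D := by
      rw [← Real.dist_eq]
      exact (Metric.dist_le_diam_of_mem hK.isBounded hx hz).trans hD.le
    refine ⟨sub_nonneg.2 (Real.log_le_log hab this), ?_⟩
    rw [k, if_neg hxz.symm, abs_sub_comm, Real.log_div hD0.ne' hab.ne']
  rw [U, lintegral_congr_ae (h1.mono fun x hx => hx.2), ← ofReal_integral_eq_lintegral_ofReal
    (f := fun x => Real.log D - Real.log |x - z|) ((integrable_const _).sub h2)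
    (h1.mono fun x hx => hx.1), integral_sub (integrable_const _) h2]
  simp only [integral_const, probReal_univ, smul_eq_mul, one_mul]
  exact ENNReal.ofReal_le_of_le_toReal (by linarith)

theorem arc {s : ℂ} (hs : s ≠ 0) {t : ℝ} (ht : (t : ℂ) = 36 * (s + s⁻¹)) :
    (∀ᵐ θ : ℝ, t - 72 * Real.cos θ ≠ 0) ∧
    IntegrableOn (fun θ => Real.log |t - 72 * Real.cos θ|) (Ioo 0 π) ∧
      ∫ θ in Ioo 0 π, Real.log |t - 72 * Real.cos θ|
        = π * (Real.log 36 - Real.log ‖s‖ + 2 * Real.posLog ‖s‖) := by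
  have hpi := Real.pi_pos
  set g : ℝ → ℝ := fun θ => Real.log ‖circleMap 0 1 θ - s‖ with hg
  have h1 : IntervalIntegrable g volume 0 (2 * π) := circleIntegrable_log_norm_sub_const 1
  have h2 : ∫ θ in (0 : ℝ)..2 * π, g θ = 2 * π * Real.posLog ‖s‖ := by
    have := circleAverage_log_norm_sub_const_eq_posLog (a := s)
    rw [Real.circleAverage_def, smul_eq_mul] at this
    rw [← this]
    field_simp
    rfl
  have h3 : IntervalIntegrable g volume 0 π := h1.mono_set (by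
    rw [uIcc_of_le hpi.le, uIcc_of_le (by positivity)]
    exact Icc_subset_Icc le_rfl (by linarith))
  have h4 : IntervalIntegrable g volume π (2 * π) := h3.symm.trans h1
  have h5 : IntervalIntegrable (fun θ => g (2 * π - θ)) volume 0 π := by
    have := (h4.comp_sub_left (2 * π)).symm
    rwa [sub_self, show 2 * π - π = π by ring] at this
  have h6 : ∫ θ in (0 : ℝ)..π, g (2 * π - θ) = ∫ θ in π..2 * π, g θ := by
    rw [intervalIntegral.integral_comp_sub_left, sub_zero, show 2 * π - π = π by ring]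
  have a1 : ∀ᵐ θ : ℝ, circleMap 0 1 θ ≠ s :=
    ((countable_singleton s).preimage_circleMap 0 one_ne_zero).ae_notMem volume
  have a2 : ∀ᵐ θ : ℝ, circleMap 0 1 (2 * π - θ) ≠ s :=
    (((countable_singleton s).preimage_circleMap 0 one_ne_zero).preimage_of_injOn
      (f := fun θ : ℝ => 2 * π - θ) sub_right_injective.injOn).ae_notMem volume
  have e : ∀ θ : ℝ, |t - 72 * Real.cos θ|
      = 36 * ‖s‖⁻¹ * ‖circleMap 0 1 θ - s‖ * ‖circleMap 0 1 (2 * π - θ) - s‖ := fun θ => by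
    have e1 : circleMap 0 1 (2 * π - θ) = (circleMap 0 1 θ)⁻¹ := by
      rw [circleMap_zero_inv, show 2 * π - θ = -θ + 2 * π by ring, periodic_circleMap 0 1]
      simp
    have e2 : ((72 * Real.cos θ : ℝ) : ℂ) = 36 * (circleMap 0 1 θ + (circleMap 0 1 θ)⁻¹) := by
      rw [circleMap_zero_inv]
      simp only [circleMap, Complex.cos, Complex.ofReal_mul, Complex.ofReal_cos]
      push_cast
      ring_nf
    have e3 : circleMap 0 1 θ ≠ 0 := circleMap_ne_center one_ne_zero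
    rw [← Real.norm_eq_abs, ← Complex.norm_real, Complex.ofReal_sub, ht, e2, e1, ← norm_inv,
      show (36 : ℝ) = ‖(36 : ℂ)‖ by simp, ← norm_mul, ← norm_mul, ← norm_mul]
    congr 1
    field_simp
    ring
  have hs0 : 0 < ‖s‖ := norm_pos_iff.2 hs
  have a3 : ∀ᵐ θ : ℝ, t - 72 * Real.cos θ ≠ 0 ∧ Real.log 36 - Real.log ‖s‖ + g θ + g (2 * π - θ)
      = Real.log |t - 72 * Real.cos θ| := by
    filter_upwards [a1, a2] with θ b1 b2
    have c1 := norm_pos_iff.2 (sub_ne_zero.2 b1)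
    have c2 := norm_pos_iff.2 (sub_ne_zero.2 b2)
    refine ⟨abs_pos.1 (by rw [e]; positivity), ?_⟩
    rw [e, Real.log_mul (by positivity) c2.ne', Real.log_mul (by positivity) c1.ne',
      Real.log_mul (by positivity) (by positivity), Real.log_inv]
    rfl
  have h7 := ((intervalIntegrable_const (c := Real.log 36 - Real.log ‖s‖)).add h3).add h5
  refine ⟨a3.mono fun θ h => h.1, ?_, ?_⟩
  · exact ((intervalIntegrable_iff_integrableOn_Ioo_of_le hpi.le).1 h7).congr
      (ae_restrict_of_ae (a3.mono fun θ h => h.2))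
  · rw [← integral_congr_ae (ae_restrict_of_ae (a3.mono fun θ h => h.2)),
      ← integral_Ioc_eq_integral_Ioo, ← intervalIntegral.integral_of_le hpi.le,
      intervalIntegral.integral_add (intervalIntegrable_const.add h3) h5,
      intervalIntegral.integral_add intervalIntegrable_const h3, h6, add_assoc,
      intervalIntegral.integral_add_adjacent_intervals h3 h4, h2]
    simp only [intervalIntegral.integral_const, smul_eq_mul]
    ring

theorem arc_in {t : ℝ} (ht : |t| ≤ 72) :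
    (∀ᵐ θ : ℝ, t - 72 * Real.cos θ ≠ 0) ∧
    IntegrableOn (fun θ => Real.log |t - 72 * Real.cos θ|) (Ioo 0 π) ∧
      ∫ θ in Ioo 0 π, Real.log |t - 72 * Real.cos θ| = π * Real.log 36 := by
  rw [abs_le] at ht
  have := arc (s := circleMap 0 1 (Real.arccos (t / 72))) (t := t)
    (circleMap_ne_center one_ne_zero) (by
      have h : t = 72 * Real.cos (Real.arccos (t / 72)) := by
        rw [Real.cos_arccos (by linarith) (by linarith)]
        ring
      conv_lhs => rw [h]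
      rw [circleMap_zero_inv]
      simp only [circleMap, Complex.cos, Complex.ofReal_mul, Complex.ofReal_cos]
      push_cast
      ring_nf)
  simpa using this

theorem arc_out {s : ℝ} (hs : 1 ≤ s) :
    IntegrableOn (fun θ => Real.log |36 * (s + s⁻¹) + 72 * Real.cos θ|) (Ioo 0 π) ∧
      ∫ θ in Ioo 0 π, Real.log |36 * (s + s⁻¹) + 72 * Real.cos θ| = π * Real.log (36 * s) := by
  have hs0 : 0 < s := by linarith
  obtain ⟨-, h1, h2⟩ := arc (s := -(s : ℂ)) (t := -(36 * (s + s⁻¹)))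
    (by simpa using hs0.ne') (by push_cast; rw [inv_neg]; ring)
  have e : ∀ θ, |-(36 * (s + s⁻¹)) - 72 * Real.cos θ| = |36 * (s + s⁻¹) + 72 * Real.cos θ| :=
    fun θ => by rw [← abs_neg]; congr 1; ring
  simp only [e] at h1 h2
  refine ⟨h1, ?_⟩
  rw [h2, norm_neg, Complex.norm_real, Real.norm_of_nonneg hs0.le,
    Real.posLog_eq_log (by rwa [abs_of_pos hs0]), Real.log_mul (by norm_num) hs0.ne']
  ring

end Pool.Agent.H.MP_7fabd3_an
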