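import Pool.Agent.H.MP_7fabd3_an.A

open MeasureTheory Set Filter Topology Pool.Agent.H.MP_7f7d18_an
open scoped ENNReal NNReal Real

namespace Pool.Agent.H.MP_7fabd3_an

noncomputable def Qf (x : ℝ) : ℝ := (x ^ 2 - 25 / 2) ^ 2 - 337 / 4

def KK : Set ℝ := {x | |Qf x| ≤ 72}

noncomputable def yy (θ : ℝ) : ℝ := √(337 / 4 + 72 * Real.cos θ)

noncomputable def br (ε δ θ : ℝ) : ℝ := ε * √(25 / 2 + δ * yy θ)

def Bd (ε δ : ℝ) : Set ℝ := {x | 0 < ε * x ∧ 0 < δ * (x ^ 2 - 25 / 2) ∧ |Qf x| < 72}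

noncomputable def w (c x : ℝ) : ℝ :=
  |x ^ 2 - c| / (π * √|(x ^ 2 - 9) * (x ^ 2 - 16) * (x ^ 2 - 25)|)

theorem w_meas (c : ℝ) : Measurable (w c) := by
  unfold w
  fun_prop

theorem Qf_cont : Continuous Qf := by
  unfold Qf
  fun_prop

theorem br_cont (ε δ : ℝ) : Continuous (br ε δ) := by
  unfold br yy
  fun_prop

theorem Bd_meas (ε δ : ℝ) : MeasurableSet (Bd ε δ) := by
  have h1 : MeasurableSet {x : ℝ | 0 < ε * x} := measurableSet_lt measurable_const (by fun_prop)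
  have h2 : MeasurableSet {x : ℝ | 0 < δ * (x ^ 2 - 25 / 2)} :=
    measurableSet_lt measurable_const (by fun_prop)
  have h3 : MeasurableSet {x : ℝ | |Qf x| < 72} :=
    measurableSet_lt Qf_cont.abs.measurable measurable_const
  exact h1.inter (h2.inter h3)

theorem KK_closed : IsClosed KK := isClosed_le Qf_cont.abs continuous_const

theorem KK_eq : KK = Icc (-5) (-4) ∪ (Icc (-3) 3 ∪ Icc 4 5) := by
  ext x
  simp only [KK, Qf, mem_ofPred_eq, mem_union, mem_Icc, abs_le]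
  constructor
  · rintro ⟨h1, h2⟩
    have a1 : x ^ 2 ≤ 25 := by nlinarith
    have a2 : x ^ 2 ≤ 9 ∨ 16 ≤ x ^ 2 := by
      by_contra h
      push Not at h
      nlinarith
    rcases a2 with h | h
    · exact Or.inr (Or.inl (abs_le_of_sq_le_sq' (by linarith) (by norm_num)))
    · have a3 := abs_le_of_sq_le_sq' (a := x) (b := 5) (by linarith) (by norm_num)
      rcases le_total x 0 with h0 | h0
      · exact Or.inl ⟨a3.1, by nlinarith⟩
      · exact Or.inr (Or.inr ⟨by nlinarith, a3.2⟩)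
  · intro h
    have a1 : x ^ 2 ≤ 25 ∧ (x ^ 2 ≤ 9 ∨ 16 ≤ x ^ 2) := by
      rcases h with h | h | h
      · exact ⟨by nlinarith, Or.inr (by nlinarith)⟩
      · exact ⟨by nlinarith, Or.inl (by nlinarith)⟩
      · exact ⟨by nlinarith, Or.inr (by nlinarith)⟩
    obtain ⟨a1, a2 | a2⟩ := a1 <;> constructor <;> nlinarith [sq_nonneg x]

theorem KK_compact : IsCompact KK := by
  rw [KK_eq]
  exact isCompact_Icc.union (isCompact_Icc.union isCompact_Icc)

theorem KK_diam : Metric.diam KK < 11 := by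
  refine lt_of_le_of_lt (Metric.diam_le_of_forall_dist_le (C := 10) (by norm_num)
    fun x hx y hy => ?_) (by norm_num)
  rw [KK_eq] at hx hy
  simp only [mem_union, mem_Icc] at hx hy
  rw [Real.dist_eq, abs_le]
  constructor <;> rcases hx with hx | hx | hx <;> rcases hy with hy | hy | hy <;> linarith

theorem yy_sq (θ : ℝ) : yy θ ^ 2 = 337 / 4 + 72 * Real.cos θ :=
  Real.sq_sqrt (by linarith [Real.neg_one_le_cos θ])

theorem yy_ge (θ : ℝ) : 7 / 2 ≤ yy θ :=
  Real.le_sqrt_of_sq_le (by linarith [Real.neg_one_le_cos θ])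

theorem yy_le (θ : ℝ) : yy θ ≤ 25 / 2 :=
  Real.sqrt_le_iff.2 ⟨by norm_num, by linarith [Real.cos_le_one θ]⟩

theorem br_sq {ε δ : ℝ} (hε : ε = 1 ∨ ε = -1) (hδ : δ = 1 ∨ δ = -1) (θ : ℝ) :
    br ε δ θ ^ 2 = 25 / 2 + δ * yy θ := by
  have := yy_ge θ
  have := yy_le θ
  rw [br, mul_pow, Real.sq_sqrt (by rcases hδ with rfl | rfl <;> linarith)]
  rcases hε with rfl | rfl <;> simp

theorem Qf_br {ε δ : ℝ} (hε : ε = 1 ∨ ε = -1) (hδ : δ = 1 ∨ δ = -1) (θ : ℝ) :
    Qf (br ε δ θ) = 72 * Real.cos θ := by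
  rw [Qf, br_sq hε hδ]
  have := yy_sq θ
  rcases hδ with rfl | rfl <;> nlinarith

theorem br_mem {ε δ : ℝ} (hε : ε = 1 ∨ ε = -1) (hδ : δ = 1 ∨ δ = -1) (θ : ℝ) :
    br ε δ θ ∈ KK := by
  show |Qf _| ≤ 72
  rw [Qf_br hε hδ, abs_le]
  constructor <;> linarith [Real.neg_one_le_cos θ, Real.cos_le_one θ]

theorem cov {ε δ : ℝ} (hε : ε = 1 ∨ ε = -1) (hδ : δ = 1 ∨ δ = -1) (h : ℝ → ℝ≥0∞) :
    ∫⁻ θ in Ioo 0 π, h (br ε δ θ)
      = ∫⁻ x in Bd ε δ, ENNReal.ofReal (4 * π * w (25 / 2) x) * h x := by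
  have hb : ∀ x ∈ Bd ε δ, -1 < Qf x / 72 ∧ Qf x / 72 < 1 := fun x hx => by
    have := abs_lt.1 hx.2.2
    constructor <;> linarith
  have hinv : ∀ x ∈ Bd ε δ, br ε δ (Real.arccos (Qf x / 72)) = x := fun x hx => by
    have h1 : yy (Real.arccos (Qf x / 72)) = δ * (x ^ 2 - 25 / 2) := by
      rw [yy, Real.cos_arccos (hb x hx).1.le (hb x hx).2.le, Real.sqrt_eq_iff_mul_self_eq
        (by linarith [(hb x hx).1]) hx.2.1.le, Qf]
      rcases hδ with rfl | rfl <;> ring
    have h2 : 25 / 2 + δ * (δ * (x ^ 2 - 25 / 2)) = (ε * x) ^ 2 := by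
      rcases hδ with rfl | rfl <;> rcases hε with rfl | rfl <;> ring
    rw [br, h1, h2, Real.sqrt_sq hx.1.le]
    rcases hε with rfl | rfl <;> ring
  have himg : (fun x => Real.arccos (Qf x / 72)) '' Bd ε δ = Ioo 0 π := by
    ext θ
    constructor
    · rintro ⟨x, hx, rfl⟩
      exact ⟨Real.arccos_pos.2 (hb x hx).2, Real.arccos_lt_pi.2 (hb x hx).1⟩
    · intro hθ
      have c1 : Real.cos θ < 1 := by
        rw [← Real.cos_zero]
        exact Real.cos_lt_cos_of_nonneg_of_le_pi le_rfl hθ.2.le hθ.1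
      have c2 : -1 < Real.cos θ := by
        rw [← Real.cos_pi]
        exact Real.cos_lt_cos_of_nonneg_of_le_pi hθ.1.le le_rfl hθ.2
      have y1 := yy_ge θ
      have y2 : yy θ < 25 / 2 := by nlinarith [yy_sq θ]
      refine ⟨br ε δ θ, ⟨?_, ?_, ?_⟩, ?_⟩
      · have : 0 < √(25 / 2 + δ * yy θ) :=
          Real.sqrt_pos.2 (by rcases hδ with rfl | rfl <;> linarith)
        rw [br]
        rcases hε with rfl | rfl <;> linarith
      · rw [br_sq hε hδ]
        rcases hδ with rfl | rfl <;> linarith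
      · rw [Qf_br hε hδ, abs_lt]
        constructor <;> linarith
      · simp only [Qf_br hε hδ]
        rw [mul_div_cancel_left₀ _ (by norm_num), Real.arccos_cos hθ.1.le hθ.2.le]
  have hd : ∀ x ∈ Bd ε δ, HasDerivWithinAt (fun x => Real.arccos (Qf x / 72))
      (-(1 / √(1 - (Qf x / 72) ^ 2)) * (4 * x * (x ^ 2 - 25 / 2) / 72)) (Bd ε δ) x := fun x hx => by
    have h1 : HasDerivAt (fun x => Qf x / 72) (4 * x * (x ^ 2 - 25 / 2) / 72) x := by
      refine HasDerivAt.div_const ?_ _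
      have := ((((hasDerivAt_id x).pow 2).sub_const (25 / 2)).pow 2).sub_const (337 / 4)
      refine this.congr_deriv ?_
      simp
      ring
    exact ((Real.hasDerivAt_arccos (hb x hx).1.ne' (hb x hx).2.ne).comp x h1).hasDerivWithinAt
  rw [← himg, lintegral_image_eq_lintegral_abs_deriv_mul (Bd_meas ε δ) hd
    (fun x hx y hy e => by rw [← hinv x hx, ← hinv y hy]; exact congrArg _ e)]
  refine setLIntegral_congr_fun (Bd_meas ε δ) fun x hx => ?_
  simp only [hinv x hx]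
  congr 2
  have hx0 : x ≠ 0 := fun h0 => by simpa [h0] using hx.1
  have hx1 : 0 < |x| := abs_pos.2 hx0
  have p1 : 0 < 1 - (Qf x / 72) ^ 2 := by nlinarith [(hb x hx).1, (hb x hx).2]
  have e1 : 1 - (Qf x / 72) ^ 2 = (|x| / 72) ^ 2 * -((x ^ 2 - 9) * (x ^ 2 - 16) * (x ^ 2 - 25)) := by
    rw [div_pow |x|, sq_abs, Qf]
    ring
  have p2 : 0 < -((x ^ 2 - 9) * (x ^ 2 - 16) * (x ^ 2 - 25)) :=
    (mul_pos_iff_of_pos_left (by positivity)).1 (e1 ▸ p1 : 0 < (|x| / 72) ^ 2 * _)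
  have p3 := Real.sqrt_pos.2 p2
  have hpi := Real.pi_pos
  rw [w, e1, Real.sqrt_mul (by positivity), Real.sqrt_sq (by positivity), abs_mul, abs_neg,
    abs_of_neg (neg_pos.1 p2), abs_of_pos (by positivity), abs_div, abs_mul, abs_mul]
  simp only [Nat.abs_ofNat]
  field_simp

noncomputable def dens (c : ℝ) : Measure ℝ :=
  (volume.restrict KK).withDensity fun x => ENNReal.ofReal (w c x)

noncomputable def lam : Measure ℝ := ENNReal.ofReal (4 * π)⁻¹ • volume.restrict (Ioo 0 π)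

theorem p1 : (1 : ℝ) = 1 ∨ (1 : ℝ) = -1 := Or.inl rfl

theorem m1 : (-1 : ℝ) = 1 ∨ (-1 : ℝ) = -1 := Or.inr rfl

theorem rho_eq : dens (25 / 2) = lam.map (br 1 1) + lam.map (br 1 (-1))
    + lam.map (br (-1) 1) + lam.map (br (-1) (-1)) := by
  refine Measure.ext_of_lintegral _ fun h hh => ?_
  have hpi := Real.pi_pos
  have hm : Measurable fun x => ENNReal.ofReal (w (25 / 2) x) * h x :=
    (w_meas _).ennreal_ofReal.mul hh
  have e : ∀ {ε δ : ℝ}, (ε = 1 ∨ ε = -1) → (δ = 1 ∨ δ = -1) → ∫⁻ x, h x ∂lam.map (br ε δ)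
      = ∫⁻ x, (Bd ε δ).indicator (fun x => ENNReal.ofReal (w (25 / 2) x) * h x) x := by
    intro ε δ hε hδ
    rw [lintegral_map hh (br_cont ε δ).measurable, lam, lintegral_smul_measure, cov hε hδ,
      lintegral_indicator (Bd_meas ε δ), smul_eq_mul,
      ← lintegral_const_mul' _ _ ENNReal.ofReal_ne_top]
    refine lintegral_congr fun x => ?_
    rw [← mul_assoc, ← ENNReal.ofReal_mul (by positivity), ← mul_assoc,
      inv_mul_cancel₀ (by positivity), one_mul]
  simp only [lintegral_add_measure]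
  rw [e p1 p1, e p1 m1, e m1 p1, e m1 m1, dens,
    lintegral_withDensity_eq_lintegral_mul _ (w_meas _).ennreal_ofReal hh,
    ← lintegral_indicator KK_closed.measurableSet,
    ← lintegral_add_left (hm.indicator (Bd_meas _ _)),
    ← lintegral_add_right _ (hm.indicator (Bd_meas _ _)),
    ← lintegral_add_right _ (hm.indicator (Bd_meas _ _))]
  refine lintegral_congr_ae ?_
  have hfin : ({-5, -4, -3, 0, 3, 4, 5} : Set ℝ).Finite := by simp
  filter_upwards [hfin.countable.ae_notMem volume] with x hx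
  simp only [mem_insert_iff, mem_singleton_iff, not_or] at hx
  obtain ⟨n1, n2, n3, n4, n5, n6, n7⟩ := hx
  by_cases hK : |Qf x| < 72
  · have hx2 : x ^ 2 - 25 / 2 ≠ 0 := fun h0 => by
      rw [Qf, h0] at hK
      norm_num at hK
    rw [indicator_of_mem (show x ∈ KK from hK.le)]
    rcases lt_or_gt_of_ne n4 with a | a <;> rcases hx2.lt_or_gt with b | b <;>
      simp only [indicator, Bd, hK, mem_ofPred_eq, one_mul, neg_mul, neg_pos, a, b, a.not_gt,
        b.not_gt, and_true, and_false, false_and, if_true, if_false, add_zero, zero_add,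
        Pi.mul_apply, gt_iff_lt]
  · have hK' : x ∉ KK := fun h0 => by
      have h1 : |Qf x| = 72 := le_antisymm h0 (not_lt.1 hK)
      have h2 : (x + 5) * (x + 4) * (x + 3) * x ^ 2 * (x - 3) * (x - 4) * (x - 5)
          = |Qf x| ^ 2 - 72 ^ 2 := by
        rw [sq_abs, Qf]
        ring
      rw [h1, sub_self] at h2
      simp only [mul_eq_zero, add_eq_zero_iff_eq_neg, sub_eq_zero, pow_eq_zero_iff two_ne_zero] at h2
      tauto
    simp [indicator, Bd, hK, hK']

end Pool.Agent.H.MP_7fabd3_an
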