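import Pool.Agent.H.MP_7fabd3_an.B

open MeasureTheory Set Filter Topology Pool.Agent.H.MP_7f7d18_an
open scoped ENNReal NNReal Real

namespace Pool.Agent.H.MP_7fabd3_an

theorem dens_K (c : ℝ) : dens c KKᶜ = 0 :=
  withDensity_absolutelyContinuous _ _ (by
    rw [Measure.restrict_apply KK_closed.measurableSet.compl, compl_inter_self, measure_empty])

theorem lam_int {g : ℝ → ℝ} (hg : Continuous g) : Integrable g lam :=
  Integrable.smul_measure (hg.integrableOn_Icc.mono_set Ioo_subset_Icc_self) ENNReal.ofReal_ne_top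

theorem lam_integral (g : ℝ → ℝ) : ∫ θ, g θ ∂lam = (4 * π)⁻¹ * ∫ θ in Ioo 0 π, g θ := by
  have hpi := Real.pi_pos
  rw [lam, integral_smul_measure, ENNReal.toReal_ofReal (by positivity), smul_eq_mul]

theorem lam_const (c : ℝ) : ∫ _, c ∂lam = c / 4 := by
  have hpi := Real.pi_pos
  rw [lam_integral]
  simp only [integral_const, MeasurableSet.univ, measureReal_restrict_apply, univ_inter,
    Real.volume_real_Ioo, sub_zero, smul_eq_mul, max_eq_left hpi.le]
  field_simp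

theorem int_rho {h : ℝ → ℝ} (hm : Measurable h) (hc : ContinuousOn h KK) :
    Integrable h (dens (25 / 2)) ∧ ∫ x, h x ∂dens (25 / 2)
      = ∫ θ, (h (br 1 1 θ) + h (br 1 (-1) θ) + h (br (-1) 1 θ) + h (br (-1) (-1) θ)) ∂lam := by
  have c : ∀ {ε δ : ℝ}, (ε = 1 ∨ ε = -1) → (δ = 1 ∨ δ = -1) →
      Integrable (fun θ => h (br ε δ θ)) lam := fun hε hδ =>
    lam_int (hc.comp_continuous (br_cont _ _) (br_mem hε hδ))
  have i : ∀ {ε δ : ℝ}, (ε = 1 ∨ ε = -1) → (δ = 1 ∨ δ = -1) → Integrable h (lam.map (br ε δ)) :=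
    fun hε hδ => (integrable_map_measure hm.aestronglyMeasurable
      (br_cont _ _).measurable.aemeasurable).2 (c hε hδ)
  have e : ∀ ε δ : ℝ, ∫ x, h x ∂lam.map (br ε δ) = ∫ θ, h (br ε δ θ) ∂lam := fun ε δ =>
    integral_map (br_cont _ _).measurable.aemeasurable hm.aestronglyMeasurable
  rw [rho_eq]
  refine ⟨(((i p1 p1).add_measure (i p1 m1)).add_measure (i m1 p1)).add_measure (i m1 m1), ?_⟩
  rw [integral_add_measure (((i p1 p1).add_measure (i p1 m1)).add_measure (i m1 p1)) (i m1 m1),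
    integral_add_measure ((i p1 p1).add_measure (i p1 m1)) (i m1 p1),
    integral_add_measure (i p1 p1) (i p1 m1), e, e, e, e,
    integral_add (f := fun θ => h (br 1 1 θ) + h (br 1 (-1) θ) + h (br (-1) 1 θ))
      (((c p1 p1).add (c p1 m1)).add (c m1 p1)) (c m1 m1),
    integral_add (f := fun θ => h (br 1 1 θ) + h (br 1 (-1) θ)) ((c p1 p1).add (c p1 m1)) (c m1 p1),
    integral_add (c p1 p1) (c p1 m1)]

instance : IsProbabilityMeasure (dens (25 / 2)) := by
  obtain ⟨h1, h2⟩ := int_rho (h := fun _ => (1 : ℝ)) measurable_const continuousOn_const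
  rw [lam_const] at h2
  refine ⟨?_⟩
  rw [← ENNReal.toReal_eq_one_iff]
  simp only [integral_const, smul_eq_mul, mul_one] at h2
  rw [← measureReal_def, h2]
  norm_num

theorem U_rho {x : ℝ} (hx : x ∈ KK) :
    U 11 (dens (25 / 2)) x = ENNReal.ofReal (Real.log 11 - Real.log 36 / 4) := by
  obtain ⟨a1, a2, a3⟩ := arc_in (t := Qf x) hx
  have hpi := Real.pi_pos
  have e : ∀ ε δ : ℝ, ∫⁻ y, k 11 x y ∂lam.map (br ε δ) = ∫⁻ θ, k 11 x (br ε δ θ) ∂lam :=
    fun ε δ => lintegral_map (k_meas' 11 x) (br_cont _ _).measurable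
  have m : ∀ ε δ : ℝ, Measurable fun θ => k 11 x (br ε δ θ) :=
    fun ε δ => (k_meas' 11 x).comp (br_cont _ _).measurable
  have hac : lam ≪ volume :=
    Measure.AbsolutelyContinuous.smul_left Measure.restrict_le_self.absolutelyContinuous _
  have key : ∀ᵐ θ ∂lam, 0 ≤ 4 * Real.log 11 - Real.log |Qf x - 72 * Real.cos θ| ∧
      k 11 x (br 1 1 θ) + k 11 x (br 1 (-1) θ) + k 11 x (br (-1) 1 θ) + k 11 x (br (-1) (-1) θ)
        = ENNReal.ofReal (4 * Real.log 11 - Real.log |Qf x - 72 * Real.cos θ|) := by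
    filter_upwards [hac.ae_le a1] with θ hθ
    have f : ∀ {ε δ : ℝ}, (ε = 1 ∨ ε = -1) → (δ = 1 ∨ δ = -1) → x - br ε δ θ ≠ 0 ∧
        0 ≤ Real.log 11 - Real.log |x - br ε δ θ| ∧
        k 11 x (br ε δ θ) = ENNReal.ofReal (Real.log 11 - Real.log |x - br ε δ θ|) := by
      intro ε δ hε hδ
      have hne : x ≠ br ε δ θ := fun h0 => hθ (by rw [h0, Qf_br hε hδ, sub_self])
      have hab : 0 < |x - br ε δ θ| := abs_pos.2 (sub_ne_zero.2 hne)
      have : |x - br ε δ θ| ≤ 11 := by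
        rw [← Real.dist_eq]
        exact (Metric.dist_le_diam_of_mem KK_compact.isBounded hx (br_mem hε hδ θ)).trans KK_diam.le
      refine ⟨sub_ne_zero.2 hne, sub_nonneg.2 (Real.log_le_log hab this), ?_⟩
      rw [k, if_neg hne, Real.log_div (by norm_num) hab.ne']
    obtain ⟨n1, q1, e1⟩ := f p1 p1
    obtain ⟨n2, q2, e2⟩ := f p1 m1
    obtain ⟨n3, q3, e3⟩ := f m1 p1
    obtain ⟨n4, q4, e4⟩ := f m1 m1
    have s1 : br (-1) 1 θ = -br 1 1 θ := by simp [br]
    have s2 : br (-1) (-1) θ = -br 1 (-1) θ := by simp [br]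
    have pr : Qf x - 72 * Real.cos θ
        = (x - br 1 1 θ) * (x - br 1 (-1) θ) * (x - br (-1) 1 θ) * (x - br (-1) (-1) θ) := by
      have b1 := br_sq p1 p1 θ
      have b2 := br_sq p1 m1 θ
      have b3 := yy_sq θ
      calc Qf x - 72 * Real.cos θ
          = (x ^ 2 - (25 / 2 + 1 * yy θ)) * (x ^ 2 - (25 / 2 + -1 * yy θ)) := by
            rw [Qf]; nlinarith
        _ = _ := by rw [← b1, ← b2, s1, s2]; ring
    have lg : 4 * Real.log 11 - Real.log |Qf x - 72 * Real.cos θ|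
        = (Real.log 11 - Real.log |x - br 1 1 θ|) + (Real.log 11 - Real.log |x - br 1 (-1) θ|)
          + (Real.log 11 - Real.log |x - br (-1) 1 θ|)
          + (Real.log 11 - Real.log |x - br (-1) (-1) θ|) := by
      simp only [Real.log_abs]
      rw [pr, Real.log_mul (mul_ne_zero (mul_ne_zero n1 n2) n3) n4,
        Real.log_mul (mul_ne_zero n1 n2) n3, Real.log_mul n1 n2]
      ring
    rw [lg, e1, e2, e3, e4, ← ENNReal.ofReal_add q1 q2, ← ENNReal.ofReal_add (add_nonneg q1 q2) q3,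
      ← ENNReal.ofReal_add (add_nonneg (add_nonneg q1 q2) q3) q4]
    exact ⟨by linarith, rfl⟩
  have i1 : Integrable (fun θ => Real.log |Qf x - 72 * Real.cos θ|) lam :=
    Integrable.smul_measure a2 ENNReal.ofReal_ne_top
  have i0 : Integrable (fun _ : ℝ => 4 * Real.log 11) lam := lam_int continuous_const
  rw [U, rho_eq]
  simp only [lintegral_add_measure]
  rw [e, e, e, e, ← lintegral_add_left (m _ _), ← lintegral_add_right _ (m _ _),
    ← lintegral_add_right _ (m _ _), lintegral_congr_ae (key.mono fun θ h => h.2),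
    ← ofReal_integral_eq_lintegral_ofReal
      (f := fun θ => 4 * Real.log 11 - Real.log |Qf x - 72 * Real.cos θ|) (i0.sub i1)
      (key.mono fun θ h => h.1), integral_sub i0 i1, lam_const, lam_integral, a3]
  congr 1
  field_simp

noncomputable def ff (x : ℝ) : ℝ := |x ^ 2 - 15| / |x ^ 2 - 25 / 2|

theorem ff_meas : Measurable ff := by
  unfold ff
  fun_prop

theorem ne_on {x : ℝ} (hx : x ∈ KK) : x ^ 2 - 15 ≠ 0 ∧ x ^ 2 - 25 / 2 ≠ 0 := by
  have h : |Qf x| ≤ 72 := hx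
  rw [Qf, abs_le] at h
  constructor
  · intro h0
    rw [sub_eq_zero.1 h0] at h
    norm_num at h
  · intro h0
    rw [h0] at h
    norm_num at h

theorem ff_pos {x : ℝ} (hx : x ∈ KK) : 0 < ff x :=
  div_pos (abs_pos.2 (ne_on hx).1) (abs_pos.2 (ne_on hx).2)

theorem ff_cont : ContinuousOn ff KK :=
  ContinuousOn.div (by fun_prop) (by fun_prop) fun _ hx => abs_ne_zero.2 (ne_on hx).2

theorem mu_eq : dens 15 = (dens (25 / 2)).withDensity fun x => ENNReal.ofReal (ff x) := by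
  rw [dens, dens, ← withDensity_mul _ (w_meas _).ennreal_ofReal ff_meas.ennreal_ofReal]
  refine withDensity_congr_ae (ae_restrict_of_forall_mem KK_closed.measurableSet fun x hx => ?_)
  have hpi := Real.pi_pos
  have := abs_pos.2 (ne_on hx).2
  simp only [Pi.mul_apply]
  rw [← ENNReal.ofReal_mul (by unfold w; positivity), w, w, ff]
  congr 1
  rw [div_mul_div_comm, mul_comm (π * _), mul_div_mul_left _ _ this.ne']

theorem ff_br {ε : ℝ} (hε : ε = 1 ∨ ε = -1) (θ : ℝ) :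
    ff (br ε 1 θ) = (yy θ - 5 / 2) / yy θ ∧ ff (br ε (-1) θ) = (yy θ + 5 / 2) / yy θ := by
  have := yy_ge θ
  rw [ff, ff, br_sq hε p1, br_sq hε m1, abs_of_pos (by linarith), abs_of_pos (by linarith),
    abs_of_neg (by linarith), abs_of_neg (by linarith)]
  constructor <;> congr 1 <;> ring

theorem int_mu {g : ℝ → ℝ} (hg : Continuous g) : ∫ x, g x ∂dens 15 = ∫ θ,
    ((yy θ - 5 / 2) / yy θ * (g (br 1 1 θ) + g (br (-1) 1 θ))
      + (yy θ + 5 / 2) / yy θ * (g (br 1 (-1) θ) + g (br (-1) (-1) θ))) ∂lam := by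
  have hf0 : ∀ x, 0 ≤ ff x := fun x => by unfold ff; positivity
  rw [mu_eq, integral_withDensity_eq_integral_toReal_smul ff_meas.ennreal_ofReal
    (Eventually.of_forall fun _ => ENNReal.ofReal_lt_top)]
  simp only [ENNReal.toReal_ofReal (hf0 _), smul_eq_mul]
  rw [(int_rho (h := fun x => ff x * g x) (ff_meas.mul hg.measurable)
    (ff_cont.mul hg.continuousOn)).2]
  refine integral_congr_ae (Eventually.of_forall fun θ => ?_)
  simp only [(ff_br p1 θ).1, (ff_br p1 θ).2, (ff_br m1 θ).1, (ff_br m1 θ).2]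
  ring

instance : IsProbabilityMeasure (dens 15) := by
  have h2 := int_mu (g := fun _ => (1 : ℝ)) continuous_const
  have e : ∀ θ, (yy θ - 5 / 2) / yy θ * (1 + 1) + (yy θ + 5 / 2) / yy θ * (1 + 1) = 4 := fun θ => by
    have := yy_ge θ
    field_simp
    ring
  simp only [e] at h2
  rw [lam_const] at h2
  refine ⟨?_⟩
  rw [← ENNReal.toReal_eq_one_iff]
  simp only [integral_const, smul_eq_mul, mul_one] at h2
  rw [← measureReal_def, h2]
  norm_num

theorem mu_sq : ∫ x, x ^ 2 ∂dens 15 = 10 := by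
  rw [int_mu (by fun_prop)]
  have e : ∀ θ, (yy θ - 5 / 2) / yy θ * (br 1 1 θ ^ 2 + br (-1) 1 θ ^ 2)
      + (yy θ + 5 / 2) / yy θ * (br 1 (-1) θ ^ 2 + br (-1) (-1) θ ^ 2) = 40 := fun θ => by
    have := yy_ge θ
    rw [br_sq p1 p1, br_sq m1 p1, br_sq p1 m1, br_sq m1 m1]
    field_simp
    ring
  simp only [e]
  rw [lam_const]
  norm_num

theorem log_ff : Integrable (fun x => Real.log (ff x)) (dens (25 / 2)) ∧
    ∫ x, Real.log (ff x) ∂dens (25 / 2) = Real.log (27 / 32) / 2 := by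
  obtain ⟨h1, h2⟩ := int_rho (h := fun x => Real.log (ff x)) ff_meas.log
    (ff_cont.log fun x hx => (ff_pos hx).ne')
  refine ⟨h1, ?_⟩
  obtain ⟨a1, a2⟩ := arc_out (s := 3 / 2) (by norm_num)
  obtain ⟨b1, b2⟩ := arc_out (s := 16 / 9) (by norm_num)
  have e : ∀ θ, Real.log (ff (br 1 1 θ)) + Real.log (ff (br 1 (-1) θ))
      + Real.log (ff (br (-1) 1 θ)) + Real.log (ff (br (-1) (-1) θ))
      = 2 * (Real.log |36 * (3 / 2 + (3 / 2)⁻¹) + 72 * Real.cos θ|
        - Real.log |36 * (16 / 9 + (16 / 9)⁻¹) + 72 * Real.cos θ|) := fun θ => by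
    have y1 := yy_ge θ
    have y2 := yy_sq θ
    have c1 : 36 * (3 / 2 + (3 / 2)⁻¹) + 72 * Real.cos θ = (yy θ - 5 / 2) * (yy θ + 5 / 2) := by
      nlinarith
    have c2 : 36 * (16 / 9 + (16 / 9)⁻¹) + 72 * Real.cos θ = yy θ * yy θ := by
      nlinarith
    have n0 : yy θ ≠ 0 := by linarith
    have n1 : yy θ - 5 / 2 ≠ 0 := by linarith
    have n2 : yy θ + 5 / 2 ≠ 0 := by linarith
    simp only [(ff_br p1 θ).1, (ff_br p1 θ).2, (ff_br m1 θ).1, (ff_br m1 θ).2, Real.log_abs]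
    rw [c1, c2, Real.log_div n1 n0, Real.log_div n2 n0, Real.log_mul n1 n2, Real.log_mul n0 n0]
    ring
  simp only [e] at h2
  have hpi := Real.pi_pos
  rw [h2, lam_integral, integral_const_mul, integral_sub a1 b1, a2, b2,
    show (27 / 32 : ℝ) = 36 * (3 / 2) / (36 * (16 / 9)) by norm_num,
    Real.log_div (by norm_num) (by norm_num)]
  field_simp
  ring

theorem energy_rho : ∫⁻ x, U 11 (dens (25 / 2)) x ∂dens (25 / 2)
      = ENNReal.ofReal (Real.log 11 - Real.log 36 / 4) ∧ ∀ ν : Measure ℝ,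
      IsProbabilityMeasure ν → ν KKᶜ = 0 →
      ∫⁻ x, U 11 (dens (25 / 2)) x ∂dens (25 / 2) ≤ ∫⁻ x, U 11 ν x ∂ν :=
  is_min KK_compact KK_diam (dens_K _) ENNReal.ofReal_lt_top fun _ hx => U_rho hx

theorem rn_eq : (dens 15).rnDeriv (dens (25 / 2)) =ᵐ[dens (25 / 2)]
    fun x => ENNReal.ofReal (ff x) := by
  rw [mu_eq]
  exact Measure.rnDeriv_withDensity _ ff_meas.ennreal_ofReal

theorem log_rn : (fun x => Real.log ((dens 15).rnDeriv (dens (25 / 2)) x).toReal)
    =ᵐ[dens (25 / 2)] fun x => Real.log (ff x) := by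
  filter_upwards [rn_eq] with x hx
  rw [hx, ENNReal.toReal_ofReal (by unfold ff; positivity)]

theorem ineq : (10 : ℝ) / (11 * Real.exp (-(ENNReal.ofReal
    (Real.log 11 - Real.log 36 / 4)).toReal)) ^ (2 * 1) < 2 * Real.exp (Real.log (27 / 32) / 2) := by
  have h36 : Real.log 36 = 2 * Real.log 6 := by
    rw [show (36 : ℝ) = 6 ^ 2 by norm_num, Real.log_pow]
    norm_num
  have h0 : 0 ≤ Real.log 11 - Real.log 36 / 4 := by
    have := Real.log_le_log (show (0 : ℝ) < 6 by norm_num) (show (6 : ℝ) ≤ 11 by norm_num)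
    have := Real.log_nonneg (show (1 : ℝ) ≤ 6 by norm_num)
    linarith
  have h1 : (11 * Real.exp (-(Real.log 11 - Real.log 36 / 4))) ^ (2 * 1) = 6 := by
    rw [neg_sub, Real.exp_sub, Real.exp_log (by norm_num), mul_div_cancel₀ _ (by norm_num),
      ← Real.exp_nat_mul, h36]
    norm_num
    rw [show 2 * (2 * Real.log 6 / 4) = Real.log 6 by ring, Real.exp_log (by norm_num)]
  rw [ENNReal.toReal_ofReal h0, h1]
  have h2 : Real.exp (Real.log (27 / 32) / 2) ^ 2 = 27 / 32 := by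
    rw [← Real.exp_nat_mul]
    norm_num
    rw [show 2 * (Real.log (27 / 32) / 2) = Real.log (27 / 32) by ring, Real.exp_log (by norm_num)]
  nlinarith [Real.exp_pos (Real.log (27 / 32) / 2)]

end Pool.Agent.H.MP_7fabd3_an
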