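import Pool.Agent.H.MP_7fabd3_an.C

open MeasureTheory Set Filter Topology Complex
open scoped ENNReal NNReal Real

namespace Pool.Agent.H.MP_7fabd3_an

theorem path_t (x a : ℝ) : Tendsto (fun ε : ℝ => (x : ℂ) + ε * I - a) (𝓝[>] 0)
    (𝓝 ((x - a : ℝ) : ℂ)) := by
  have : Tendsto (fun ε : ℝ => (x : ℂ) + ε * I - a) (𝓝 0) (𝓝 ((x : ℂ) + (0 : ℝ) * I - a)) :=
    Continuous.tendsto (by fun_prop) 0
  simpa using this.mono_left nhdsWithin_le_nhds

theorem half_real {t : ℝ} (ht : 0 ≤ t) : (t : ℂ) ^ (1 / 2 : ℂ) = (√t : ℝ) := by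
  rw [Real.sqrt_eq_rpow, ofReal_cpow ht]
  norm_num

theorem root_pos {x a : ℝ} (h : a < x) :
    Tendsto (fun ε : ℝ => ((x : ℂ) + ε * I - a) ^ (1 / 2 : ℂ)) (𝓝[>] 0)
      (𝓝 ((√|x - a| : ℝ) : ℂ)) := by
  rw [abs_of_pos (sub_pos.2 h), ← half_real (sub_pos.2 h).le]
  exact (continuousAt_cpow_const (ofReal_mem_slitPlane.2 (sub_pos.2 h))).tendsto.comp (path_t x a)

theorem root_neg {x a : ℝ} (h : x < a) :
    Tendsto (fun ε : ℝ => ((x : ℂ) + ε * I - a) ^ (1 / 2 : ℂ)) (𝓝[>] 0)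
      (𝓝 ((√|x - a| : ℝ) * I)) := by
  have h0 : x - a < 0 := sub_neg.2 h
  have hne : ((x - a : ℝ) : ℂ) ≠ 0 := ofReal_ne_zero.2 h0.ne
  have e : ((√|x - a| : ℝ) : ℂ) * I = exp (log ((x - a : ℝ) : ℂ) * (1 / 2)) := by
    rw [← cpow_def_of_ne_zero hne, ofReal_cpow_of_nonpos h0.le, abs_of_neg h0,
      ← half_real (by linarith), show (π : ℂ) * I * (1 / 2) = π / 2 * I by ring, exp_pi_div_two_mul_I]
    simp
  have h1 : Tendsto (fun ε : ℝ => (x : ℂ) + ε * I - a) (𝓝[>] 0)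
      (𝓝[{z : ℂ | 0 ≤ z.im}] ((x - a : ℝ) : ℂ)) := by
    refine tendsto_nhdsWithin_iff.2 ⟨path_t x a, ?_⟩
    filter_upwards [self_mem_nhdsWithin] with ε hε
    simpa using le_of_lt hε
  have h2 := (continuousWithinAt_log_of_re_neg_of_im_zero (z := ((x - a : ℝ) : ℂ))
    (by simpa using h0) (by simp)).tendsto.comp h1
  rw [e]
  refine ((h2.mul_const (1 / 2)).cexp).congr' ?_
  filter_upwards [(path_t x a).eventually_ne hne] with ε hε
  rw [cpow_def_of_ne_zero hε]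
  rfl

noncomputable def al : Fin 3 → ℝ := ![-5, -3, 4]
noncomputable def be : Fin 3 → ℝ := ![-4, 3, 5]
noncomputable def ga : Fin 2 → ℝ := ![-√15, √15]

theorem boundary {x : ℝ} (hx : x ∈ ⋃ j, Ioo (al j) (be j)) :
    Tendsto (fun ε : ℝ => (-(∏ j, ((x : ℂ) + ε * I - ga j)) /
      ∏ j, (((x : ℂ) + ε * I - al j) ^ (1 / 2 : ℂ) * ((x : ℂ) + ε * I - be j) ^ (1 / 2 : ℂ))).im / π)
      (𝓝[>] 0) (𝓝 (w 15 x)) := by
  have hnum : Tendsto (fun ε : ℝ => -(∏ j, ((x : ℂ) + ε * I - ga j))) (𝓝[>] 0)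
      (𝓝 (-((x ^ 2 - 15 : ℝ) : ℂ))) := by
    have := ((path_t x (-√15)).mul (path_t x √15)).neg
    rw [← ofReal_mul, show (x - -√15) * (x - √15) = x ^ 2 - 15 by
      nlinarith [Real.sq_sqrt (show (0 : ℝ) ≤ 15 by norm_num)]] at this
    simpa [ga, Fin.prod_univ_two] using this
  set R : ℝ := √|(x ^ 2 - 9) * (x ^ 2 - 16) * (x ^ 2 - 25)| with hR
  have hR' : R = √|x - -5| * √|x - -4| * (√|x - -3| * √|x - 3|) * (√|x - 4| * √|x - 5|) := by
    simp only [← Real.sqrt_mul (abs_nonneg _), ← abs_mul]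
    rw [hR]
    congr 2
    ring
  have fin : ∀ (s : ℝ), (s = 1 ∨ s = -1) → 0 < s * (x ^ 2 - 15) → R ≠ 0 →
      Tendsto (fun ε : ℝ => ∏ j, (((x : ℂ) + ε * I - al j) ^ (1 / 2 : ℂ)
        * ((x : ℂ) + ε * I - be j) ^ (1 / 2 : ℂ))) (𝓝[>] 0) (𝓝 (s * R * I)) →
      Tendsto (fun ε : ℝ => (-(∏ j, ((x : ℂ) + ε * I - ga j)) /
      ∏ j, (((x : ℂ) + ε * I - al j) ^ (1 / 2 : ℂ) * ((x : ℂ) + ε * I - be j) ^ (1 / 2 : ℂ))).im / π)
      (𝓝[>] 0) (𝓝 (w 15 x)) := by
    intro s hs hpos hR0 hden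
    have hs0 : s ≠ 0 := by rcases hs with rfl | rfl <;> norm_num
    have h1 := hnum.div hden (mul_ne_zero (mul_ne_zero (ofReal_ne_zero.2 hs0)
      (ofReal_ne_zero.2 hR0)) I_ne_zero)
    have e1 : -((x ^ 2 - 15 : ℝ) : ℂ) / (s * R * I) = ((|x ^ 2 - 15| / R : ℝ) : ℂ) * I := by
      have : (R : ℂ) ≠ 0 := ofReal_ne_zero.2 hR0
      rcases hs with rfl | rfl
      · rw [abs_of_pos (by linarith)]
        push_cast
        field_simp
        simp
      · rw [abs_of_neg (by linarith)]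
        push_cast
        field_simp
        simp
    rw [e1] at h1
    have h2 := ((continuous_im.tendsto _).comp h1).div_const π
    have e2 : (((|x ^ 2 - 15| / R : ℝ) : ℂ) * I).im / π = w 15 x := by
      rw [w, ← hR, mul_I_im, ofReal_re, div_div, mul_comm]
    rw [e2] at h2
    exact h2
  have hRne : x ≠ -5 → x ≠ -4 → x ≠ -3 → x ≠ 3 → x ≠ 4 → x ≠ 5 → R ≠ 0 := by
    intro a b c d e f
    rw [hR']
    have g : ∀ t : ℝ, x ≠ t → 0 < √|x - t| := fun t ht => Real.sqrt_pos.2 (abs_pos.2 (sub_ne_zero.2 ht))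
    exact (mul_pos (mul_pos (mul_pos (g _ a) (g _ b)) (mul_pos (g _ c) (g _ d)))
      (mul_pos (g _ e) (g _ f))).ne'
  simp only [mem_iUnion, Fin.exists_fin_succ, al, be, Matrix.cons_val_zero, Matrix.cons_val_succ,
    IsEmpty.exists_iff, or_false, mem_Ioo] at hx
  rcases hx with ⟨h1, h2⟩ | ⟨h1, h2⟩ | ⟨h1, h2⟩
  · refine fin 1 p1 (by nlinarith) (hRne (by linarith) (by linarith) (by linarith) (by linarith)
      (by linarith) (by linarith)) ?_
    have := (((root_pos h1).mul (root_neg h2)).mul ((root_neg (show x < -3 by linarith)).mul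
      (root_neg (show x < 3 by linarith)))).mul ((root_neg (show x < 4 by linarith)).mul
      (root_neg (show x < 5 by linarith)))
    simp only [Fin.prod_univ_three]
    refine Tendsto.mono_right this (le_of_eq (congrArg 𝓝 ?_))
    rw [hR']
    push_cast
    linear_combination ((√|x - -5| : ℝ) * (√|x - -4| : ℝ) * (√|x - -3| : ℝ) * (√|x - 3| : ℝ)
      * (√|x - 4| : ℝ) * (√|x - 5| : ℝ) : ℂ)
      * I * (I_pow_four)
  · refine fin (-1) m1 (by nlinarith) (hRne (by linarith) (by linarith) (by linarith) (by linarith)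
      (by linarith) (by linarith)) ?_
    have := (((root_pos (show -5 < x by linarith)).mul (root_pos (show -4 < x by linarith))).mul
      ((root_pos h1).mul (root_neg h2))).mul ((root_neg (show x < 4 by linarith)).mul
      (root_neg (show x < 5 by linarith)))
    simp only [Fin.prod_univ_three]
    refine Tendsto.mono_right this (le_of_eq (congrArg 𝓝 ?_))
    rw [hR']
    push_cast
    linear_combination ((√|x - -5| : ℝ) * (√|x - -4| : ℝ) * (√|x - -3| : ℝ) * (√|x - 3| : ℝ)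
      * (√|x - 4| : ℝ) * (√|x - 5| : ℝ) : ℂ)
      * I * (I_sq)
  · refine fin 1 p1 (by nlinarith) (hRne (by linarith) (by linarith) (by linarith) (by linarith)
      (by linarith) (by linarith)) ?_
    have := (((root_pos (show -5 < x by linarith)).mul (root_pos (show -4 < x by linarith))).mul
      ((root_pos (show -3 < x by linarith)).mul (root_pos (show 3 < x by linarith)))).mul
      ((root_pos h1).mul (root_neg h2))
    simp only [Fin.prod_univ_three]
    refine Tendsto.mono_right this (le_of_eq (congrArg 𝓝 ?_))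
    rw [hR']
    push_cast
    ring

theorem KK_union : KK = ⋃ j, Icc (al j) (be j) := by
  rw [KK_eq]
  ext x
  simp [Fin.exists_fin_succ, al, be]

end Pool.Agent.H.MP_7fabd3_an
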